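import Pool.Agent.Q268.CD.Poly

set_option autoImplicit false

namespace Pool.Agent.Q268.CD

open Finset

lemma desc_div (q : ℕ) (hq : 0 < q) (e : ℕ) :
    (q.descFactorial e : ℝ) / (q : ℝ) ^ e = ∏ j ∈ range e, (1 - (j : ℝ) / q) := by
  have hqR : (q : ℝ) ≠ 0 := by positivity
  induction e with
  | zero => simp
  | succ e ih =>
    rw [Finset.prod_range_succ, ← ih, Nat.descFactorial_succ]
    rcases Nat.lt_or_ge q e with h | h
    · have : q.descFactorial e = 0 := Nat.descFactorial_eq_zero_iff_lt.mpr h
      simp [this]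
    · rw [Nat.cast_mul, Nat.cast_sub h, pow_succ]
      field_simp

lemma desc_div' (q : ℕ) (hq : 0 < q) (e : ℕ) (he : 0 < e) :
    (q.descFactorial e : ℝ) / (q : ℝ) ^ e = ∏ j ∈ Finset.Ico 1 e, (1 - (j : ℝ) / q) := by
  rw [desc_div q hq, Finset.range_eq_Ico, Finset.prod_eq_prod_Ico_succ_bot he]
  simp

/-- number of maps injective on `S` -/
lemma card_injOn {N q : ℕ} (S : Finset (Fin N)) :
    Nat.card {f : Fin N → Fin q // Set.InjOn f (S : Set (Fin N))} =
      q.descFactorial S.card * q ^ (N - S.card) := by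
  classical
  let E : {f : Fin N → Fin q // Set.InjOn f (S : Set (Fin N))} ≃
      ({x : Fin N // x ∈ S} ↪ Fin q) × ({x : Fin N // x ∉ S} → Fin q) :=
    { toFun := fun f => (⟨fun x => f.1 x.1, fun x y h => Subtype.ext (f.2 x.2 y.2 h)⟩, fun x => f.1 x.1)
      invFun := fun p => ⟨fun x => if h : x ∈ S then p.1 ⟨x, h⟩ else p.2 ⟨x, h⟩, by
        intro x hx y hy h
        have hx' : x ∈ S := hx
        have hy' : y ∈ S := hy
        simp only [hx', hy', dif_pos] at h
        exact congrArg Subtype.val (p.1.injective h)⟩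
      left_inv := by
        intro f
        apply Subtype.ext
        funext x
        by_cases h : x ∈ S
        · simp only [h, dif_pos]; rfl
        · simp only [h, dif_neg, not_false_iff]
      right_inv := by
        rintro ⟨p1, p2⟩
        apply Prod.ext
        · ext x
          simp [x.2]
        · funext x
          simp [x.2] }
  rw [Nat.card_congr E, Nat.card_prod, Nat.card_eq_fintype_card, Nat.card_eq_fintype_card,
    Fintype.card_embedding_eq, Fintype.card_fun, Fintype.card_fin]
  congr 2
  · simp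
  · rw [Fintype.card_subtype_compl, Fintype.card_fin]
    simp

/-- The averaged clique count of the random complete multipartite graph. -/
lemma sum_cliques {N q e : ℕ} :
    ∑ f : Fin N → Fin q, ((((⊤ : SimpleGraph (Fin q)).comap f).cliqueFinset e).card : ℝ) =
      (N.choose e : ℝ) * (q.descFactorial e * q ^ (N - e)) := by
  classical
  have h1 : ∀ f : Fin N → Fin q, ((((⊤ : SimpleGraph (Fin q)).comap f).cliqueFinset e).card : ℝ) =
      ∑ S ∈ (univ : Finset (Fin N)).powersetCard e,
        if Set.InjOn f (S : Set (Fin N)) then (1 : ℝ) else 0 := by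
    intro f
    rw [← Finset.sum_filter, Finset.sum_const, nsmul_eq_mul, mul_one]
    congr 2
    ext S
    rw [SimpleGraph.mem_cliqueFinset_iff, SimpleGraph.isNClique_iff, Finset.mem_filter,
      Finset.mem_powersetCard, and_comm]
    refine and_congr ⟨fun h => ⟨Finset.subset_univ _, h⟩, fun h => h.2⟩ ?_
    constructor
    · intro h x hx y hy hxy
      by_contra hne
      exact (h hx hy hne) hxy
    · intro h x hx y hy hne hxy
      exact hne (h hx hy hxy)
  rw [Finset.sum_congr rfl fun f _ => h1 f, Finset.sum_comm]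
  have h2 : ∀ S ∈ (univ : Finset (Fin N)).powersetCard e,
      ∑ f : Fin N → Fin q, (if Set.InjOn f (S : Set (Fin N)) then (1 : ℝ) else 0) =
        (q.descFactorial e * q ^ (N - e) : ℝ) := by
    intro S hS
    have hc := (Finset.mem_powersetCard.mp hS).2
    rw [← Finset.sum_filter, Finset.sum_const, nsmul_eq_mul, mul_one]
    have h3 := card_injOn (q := q) S
    rw [Nat.card_eq_fintype_card, Fintype.card_subtype, hc] at h3
    exact_mod_cast h3
  rw [Finset.sum_congr rfl h2, Finset.sum_const, Finset.card_powersetCard, Finset.card_univ,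
    Fintype.card_fin, nsmul_eq_mul]

lemma card_cliqueFinset_top {N e : ℕ} [DecidableEq (Fin N)]
    [DecidableRel (⊤ : SimpleGraph (Fin N)).Adj] :
    ((⊤ : SimpleGraph (Fin N)).cliqueFinset e).card = N.choose e := by
  have h1 : ((⊤ : SimpleGraph (Fin N)).cliqueFinset e) = (univ : Finset (Fin N)).powersetCard e := by
    ext S
    rw [SimpleGraph.mem_cliqueFinset_iff, SimpleGraph.isNClique_iff, Finset.mem_powersetCard]
    constructor
    · rintro ⟨_, h⟩
      exact ⟨Finset.subset_univ _, h⟩
    · rintro ⟨_, h⟩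
      exact ⟨fun a _ b _ hab => hab, h⟩
  rw [h1, Finset.card_powersetCard, Finset.card_univ, Fintype.card_fin]

lemma card_cliqueFinset_nat {N e : ℕ} (G : SimpleGraph (Fin N)) [DecidableEq (Fin N)]
    [DecidableRel G.Adj] :
    (G.cliqueFinset e).card = Nat.card {S : Finset (Fin N) // G.IsNClique e S} := by
  classical
  rw [Nat.card_eq_fintype_card, Fintype.card_subtype]
  congr 1

lemma sum_cliques' {N q e : ℕ} :
    ∑ f : Fin N → Fin q, (Nat.card {S : Finset (Fin N) //
        ((⊤ : SimpleGraph (Fin q)).comap f).IsNClique e S} : ℝ) =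
      (N.choose e : ℝ) * (q.descFactorial e * q ^ (N - e)) := by
  classical
  rw [← sum_cliques]
  refine Finset.sum_congr rfl fun f _ => ?_
  rw [card_cliqueFinset_nat]

/-- the coefficient function -/
noncomputable def gc {m : ℕ} (e : Fin m → ℕ) (c : Fin m → ℝ) (j : ℕ) : ℝ :=
  ∑ i, if e i = j then c i * ((e i).factorial : ℝ) else 0

lemma U_gc {m : ℕ} (e : Fin m → ℕ) (he : ∀ i, 0 < e i) (c : Fin m → ℝ) (k : ℕ) (hk : 0 < k) :
    U (gc e c) k = ∑ i, c i * ∏ j ∈ Finset.Ico 1 (e i), (1 - (j : ℝ) / k) := by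
  unfold U gc
  have hkR : (k : ℝ) ≠ 0 := by positivity
  have h1 : ∀ j ∈ range (k + 1), (k.choose j : ℝ) * ((∑ i, if e i = j then c i * ((e i).factorial : ℝ) else 0) *
      (1 / (k : ℝ)) ^ j) = ∑ i, if e i = j then
        c i * ((e i).factorial * (k.choose (e i)) * (1 / (k : ℝ)) ^ (e i)) else 0 := by
    intro j _
    rw [Finset.sum_mul, Finset.mul_sum]
    refine Finset.sum_congr rfl fun i _ => ?_
    split_ifs with h
    · subst h; ring
    · ring
  rw [Finset.sum_congr rfl h1, Finset.sum_comm]
  refine Finset.sum_congr rfl fun i _ => ?_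
  rw [Finset.sum_ite_eq, ← desc_div' k hk (e i) (he i), Nat.descFactorial_eq_factorial_mul_choose]
  split_ifs with h
  · push_cast
    rw [one_div, inv_pow]
    field_simp
  · have : k.choose (e i) = 0 := Nat.choose_eq_zero_of_lt (by
      rw [Finset.mem_range] at h; omega)
    rw [this]; simp

lemma M_gc {m N : ℕ} (e : Fin m → ℕ) (c : Fin m → ℝ) (G : SimpleGraph (Fin N))
    [DecidableEq (Fin N)] [DecidableRel G.Adj] :
    M (aG G (gc e c)) (fun _ => 1 / (N : ℝ)) =
      ∑ i, c i * ((e i).factorial * ((G.cliqueFinset (e i)).card : ℝ) / (N : ℝ) ^ (e i)) := by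
  classical
  unfold M
  have h1 : ∀ S : Finset (Fin N), aG G (gc e c) S * ∏ _x ∈ S, (1 / (N : ℝ)) =
      ∑ i, if S ∈ G.cliqueFinset (e i) then c i * ((e i).factorial * (1 / (N : ℝ) ^ (e i))) else 0 := by
    intro S
    unfold aG gc
    rw [Finset.prod_const]
    by_cases h : G.IsClique (S : Set (Fin N))
    · rw [if_pos h, Finset.sum_mul]
      refine Finset.sum_congr rfl fun i _ => ?_
      by_cases h2 : e i = S.card
      · rw [if_pos h2, if_pos, ← h2]
        · rw [one_div, one_div, inv_pow]; ring
        · rw [SimpleGraph.mem_cliqueFinset_iff, SimpleGraph.isNClique_iff]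
          exact ⟨h, h2.symm⟩
      · rw [if_neg h2, if_neg, zero_mul]
        rw [SimpleGraph.mem_cliqueFinset_iff, SimpleGraph.isNClique_iff]
        exact fun h' => h2 h'.2.symm
    · rw [if_neg h, zero_mul]
      symm
      refine Finset.sum_eq_zero fun i _ => ?_
      rw [if_neg]
      rw [SimpleGraph.mem_cliqueFinset_iff, SimpleGraph.isNClique_iff]
      exact fun h' => h h'.1
  rw [Finset.sum_congr rfl fun S _ => h1 S, Finset.sum_comm]
  refine Finset.sum_congr rfl fun i _ => ?_
  rw [Finset.sum_ite_mem, Finset.univ_inter, Finset.sum_const, nsmul_eq_mul]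
  ring

end Pool.Agent.Q268.CD
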