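import Mathlib

set_option autoImplicit false

namespace Pool.Agent.Q268.CD

open Finset

variable {V : Type} [Fintype V] [DecidableEq V]

/-- A multilinear polynomial in the vertex weights. -/
def M (a : Finset V → ℝ) (w : V → ℝ) : ℝ := ∑ S : Finset V, a S * ∏ x ∈ S, w x

omit [Fintype V] in
lemma prod_update_not_mem (w : V → ℝ) (u : V) (x : ℝ) (T : Finset V) (h : u ∉ T) :
    ∏ z ∈ T, Function.update w u x z = ∏ z ∈ T, w z :=
  Finset.prod_congr rfl fun z hz => by
    rw [Function.update_of_ne]
    rintro rfl
    exact h hz

/-- Dependence on two of the weights. -/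
lemma M_two (a : Finset V → ℝ) (w : V → ℝ) (u v : V) (huv : u ≠ v) :
    ∃ A Bu Bv Q : ℝ,
      (∀ x y : ℝ, M a (Function.update (Function.update w u x) v y) = A + Bu * x + Bv * y + Q * (x * y)) ∧
      ((∀ T : Finset V, u ∉ T → v ∉ T → a (insert u T) = a (insert v T)) → Bu = Bv) ∧
      ((∀ T : Finset V, u ∈ T → v ∈ T → a T = 0) → Q = 0) := by
  classical
  set R : Finset V := (univ.erase u).erase v with hR
  have huR : u ∉ R := by simp [hR]
  have hvR : v ∉ R := by simp [hR]
  have huvR : u ∉ insert v R := by simp [huR, huv]
  have huniv : (univ : Finset V) = insert u (insert v R) := by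
    ext x
    simp only [hR, mem_univ, mem_insert, mem_erase, true_iff, and_true]
    tauto
  have hsplit : ∀ h : Finset V → ℝ, ∑ S : Finset V, h S =
      ∑ T ∈ R.powerset, (h T + h (insert v T) + (h (insert u T) + h (insert u (insert v T)))) := by
    intro h
    rw [← Finset.powerset_univ, huniv, Finset.sum_powerset_insert huvR,
      Finset.sum_powerset_insert hvR, Finset.sum_powerset_insert hvR, ← Finset.sum_add_distrib,
      ← Finset.sum_add_distrib, ← Finset.sum_add_distrib]
  refine ⟨∑ T ∈ R.powerset, a T * ∏ z ∈ T, w z, ∑ T ∈ R.powerset, a (insert u T) * ∏ z ∈ T, w z,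
    ∑ T ∈ R.powerset, a (insert v T) * ∏ z ∈ T, w z,
    ∑ T ∈ R.powerset, a (insert u (insert v T)) * ∏ z ∈ T, w z, ?_, ?_, ?_⟩
  · intro x y
    unfold M
    rw [hsplit, Finset.sum_mul, Finset.sum_mul, Finset.sum_mul, ← Finset.sum_add_distrib,
      ← Finset.sum_add_distrib, ← Finset.sum_add_distrib]
    refine Finset.sum_congr rfl fun T hT => ?_
    have hTR := Finset.mem_powerset.mp hT
    have huT : u ∉ T := fun h => huR (hTR h)
    have hvT : v ∉ T := fun h => hvR (hTR h)
    have huvT : u ∉ insert v T := by simp [huT, huv]
    have e0 : ∏ z ∈ T, Function.update (Function.update w u x) v y z = ∏ z ∈ T, w z := by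
      rw [prod_update_not_mem _ _ _ _ hvT, prod_update_not_mem _ _ _ _ huT]
    have eu : Function.update (Function.update w u x) v y u = x := by
      rw [Function.update_of_ne huv, Function.update_self]
    have ev : Function.update (Function.update w u x) v y v = y := Function.update_self _ _ _
    rw [Finset.prod_insert huvT, Finset.prod_insert hvT, Finset.prod_insert huT, e0, eu, ev]
    ring
  · intro h
    refine Finset.sum_congr rfl fun T hT => ?_
    have hTR := Finset.mem_powerset.mp hT
    rw [h T (fun h => huR (hTR h)) (fun h => hvR (hTR h))]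
  · intro h
    refine Finset.sum_eq_zero fun T _ => ?_
    rw [h _ (by simp) (by simp), zero_mul]

lemma M_continuous (a : Finset V → ℝ) : Continuous (M a) := by
  unfold M
  fun_prop

/-- The weights of a graph polynomial. -/
noncomputable def aG (G : SimpleGraph V) (g : ℕ → ℝ) (S : Finset V) : ℝ :=
  open Classical in if G.IsClique (S : Set V) then g S.card else 0

lemma update_sum (w : V → ℝ) (u v : V) (huv : u ≠ v) (x y : ℝ) (h : x + y = w u + w v) :
    ∑ z, Function.update (Function.update w u x) v y z = ∑ z, w z := by
  have h1 : ∑ z, Function.update (Function.update w u x) v y z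
      = y + ∑ z ∈ univ \ {v}, Function.update w u x z := Finset.sum_update_of_mem (mem_univ v) _ _
  have h2 : ∑ z, Function.update w u x z = x + ∑ z ∈ univ \ {u}, w z :=
    Finset.sum_update_of_mem (mem_univ u) _ _
  have h3 : ∑ z, Function.update w u x z = Function.update w u x v + ∑ z ∈ univ \ {v}, Function.update w u x z := by
    rw [← Finset.add_sum_erase _ _ (mem_univ v), Finset.sdiff_singleton_eq_erase]
  have h4 : ∑ z, w z = w u + ∑ z ∈ univ \ {u}, w z := by
    rw [← Finset.add_sum_erase _ _ (mem_univ u), Finset.sdiff_singleton_eq_erase]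
  rw [Function.update_of_ne huv.symm] at h3
  linarith

/-- The support. -/
noncomputable def supp (w : V → ℝ) : Finset V := open Classical in univ.filter (fun x => w x ≠ 0)

lemma mem_supp {w : V → ℝ} {x : V} : x ∈ supp w ↔ w x ≠ 0 := by simp [supp]

lemma supp_update_lt (w : V → ℝ) (u v : V) (huv : u ≠ v) (hu : w u ≠ 0) (hv : w v ≠ 0) (x : ℝ) :
    (supp (Function.update (Function.update w u x) v 0)).card < (supp w).card := by
  apply Finset.card_lt_card
  constructor
  · intro z hz
    rw [mem_supp] at hz ⊢
    by_cases hzv : z = v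
    · subst hzv; exact hv
    · rw [Function.update_of_ne hzv] at hz
      by_cases hzu : z = u
      · subst hzu; exact hu
      · rwa [Function.update_of_ne hzu] at hz
  · intro h
    have h1 := h (mem_supp.mpr hv)
    rw [mem_supp, Function.update_self] at h1
    exact h1 rfl

lemma swap_update (w : V → ℝ) (u v : V) (huv : u ≠ v) (x y : ℝ) :
    Function.update (Function.update w u x) v y = Function.update (Function.update w v y) u x :=
  Function.update_comm huv x y w

/-- **Step A**: pass to a weighting supported on a clique. -/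
lemma exists_clique (G : SimpleGraph V) (g : ℕ → ℝ) :
    ∀ (k : ℕ) (w : V → ℝ), (supp w).card = k → (∀ z, 0 ≤ w z) → ∑ z, w z = 1 →
      ∃ w' : V → ℝ, (∀ z, 0 ≤ w' z) ∧ ∑ z, w' z = 1 ∧ G.IsClique (supp w' : Set V) ∧
        M (aG G g) w ≤ M (aG G g) w' := by
  classical
  intro k
  induction k using Nat.strong_induction_on with
  | _ k ih =>
    intro w hk hw hsum
    by_cases hcl : G.IsClique (supp w : Set V)
    · exact ⟨w, hw, hsum, hcl, le_rfl⟩
    · rw [SimpleGraph.isClique_iff, Set.Pairwise] at hcl
      push Not at hcl
      obtain ⟨u, hu, v, hv, huv, hna⟩ := hcl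
      rw [Finset.mem_coe, mem_supp] at hu hv
      obtain ⟨A, Bu, Bv, Q, hM, -, hQ⟩ := M_two (aG G g) w u v huv
      have hQ0 : Q = 0 := hQ fun T hT1 hT2 => by
        unfold aG
        rw [if_neg]
        intro h
        exact hna (h (by simpa using hT1) (by simpa using hT2) huv)
      have hself : Function.update (Function.update w u (w u)) v (w v) = w := by
        rw [Function.update_eq_self, Function.update_eq_self]
      have h0 := hM (w u) (w v)
      rw [hself, hQ0] at h0
      have hpu : 0 ≤ w u := hw u
      have hpv : 0 ≤ w v := hw v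
      rcases le_total Bv Bu with hB | hB
      · -- move the weight of v to u
        set w1 := Function.update (Function.update w u (w u + w v)) v 0 with hw1
        have h1 := hM (w u + w v) 0
        rw [hQ0] at h1
        have hlt : (supp w1).card < k := hk ▸ supp_update_lt w u v huv hu hv _
        have hnn : ∀ z, 0 ≤ w1 z := by
          intro z
          rw [hw1]
          by_cases hzv : z = v
          · subst hzv; rw [Function.update_self]
          · rw [Function.update_of_ne hzv]
            by_cases hzu : z = u
            · subst hzu; rw [Function.update_self]; positivity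
            · rw [Function.update_of_ne hzu]; exact hw z
        have hs1 : ∑ z, w1 z = 1 := by
          rw [hw1, update_sum w u v huv _ _ (by ring)]; exact hsum
        obtain ⟨w', h2, h3, h4, h5⟩ := ih _ hlt w1 rfl hnn hs1
        refine ⟨w', h2, h3, h4, le_trans ?_ h5⟩
        rw [h0, hw1, h1]
        nlinarith
      · set w1 := Function.update (Function.update w v (w v + w u)) u 0 with hw1
        have hw1' : w1 = Function.update (Function.update w u 0) v (w v + w u) := by
          rw [hw1, Function.update_comm huv.symm]
        have h1 := hM 0 (w v + w u)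
        rw [hQ0] at h1
        have hlt : (supp w1).card < k := hk ▸ supp_update_lt w v u huv.symm hv hu _
        have hnn : ∀ z, 0 ≤ w1 z := by
          intro z
          rw [hw1]
          by_cases hzv : z = u
          · subst hzv; rw [Function.update_self]
          · rw [Function.update_of_ne hzv]
            by_cases hzu : z = v
            · subst hzu; rw [Function.update_self]; positivity
            · rw [Function.update_of_ne hzu]; exact hw z
        have hs1 : ∑ z, w1 z = 1 := by
          rw [hw1, update_sum w v u huv.symm _ _ (by ring)]; exact hsum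
        obtain ⟨w', h2, h3, h4, h5⟩ := ih _ hlt w1 rfl hnn hs1
        refine ⟨w', h2, h3, h4, le_trans ?_ h5⟩
        rw [h0, hw1', h1]
        nlinarith

/-- The value at the uniform weighting of a clique on `k` vertices. -/
noncomputable def U (g : ℕ → ℝ) (k : ℕ) : ℝ :=
  ∑ j ∈ range (k + 1), (k.choose j : ℝ) * (g j * (1 / (k : ℝ)) ^ j)

lemma M_uniform (g : ℕ → ℝ) (w : V → ℝ) (hw : ∀ x ∈ supp w, w x = 1 / ((supp w).card : ℝ)) :
    M (aG (⊤ : SimpleGraph V) g) w = U g (supp w).card := by
  classical
  unfold M U
  have h1 : ∑ S : Finset V, aG (⊤ : SimpleGraph V) g S * ∏ x ∈ S, w x =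
      ∑ S ∈ (supp w).powerset, g S.card * (1 / ((supp w).card : ℝ)) ^ S.card := by
    symm
    refine (Finset.sum_congr rfl fun S hS => ?_).trans
      (Finset.sum_subset (Finset.subset_univ _) fun S _ hS => ?_)
    · have hS' := Finset.mem_powerset.mp hS
      have h2 : ∏ x ∈ S, w x = (1 / ((supp w).card : ℝ)) ^ S.card := by
        rw [Finset.prod_congr rfl fun x hx => hw x (hS' hx), Finset.prod_const]
      rw [h2]
      unfold aG
      rw [if_pos]
      intro a _ b _ hab
      exact hab
    · rw [Finset.mem_powerset, Finset.not_subset] at hS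
      obtain ⟨x, hx, hxn⟩ := hS
      rw [mem_supp, not_not] at hxn
      rw [Finset.prod_eq_zero hx hxn, mul_zero]
  rw [h1, Finset.sum_powerset_apply_card (fun j => g j * (1 / ((supp w).card : ℝ)) ^ j)]
  refine Finset.sum_congr rfl fun j _ => ?_
  rw [nsmul_eq_mul]

/-- **Step B**. -/
lemma max_uniform (g : ℕ → ℝ) (m : ℝ)
    (hmax : ∀ w : V → ℝ, (∀ z, 0 ≤ w z) → ∑ z, w z = 1 → M (aG (⊤ : SimpleGraph V) g) w ≤ m) :
    ∀ (k : ℕ) (w : V → ℝ), (supp w).card = k → (∀ z, 0 ≤ w z) → ∑ z, w z = 1 →
      M (aG (⊤ : SimpleGraph V) g) w = m → ∃ k : ℕ, 0 < k ∧ m = U g k := by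
  classical
  intro k
  induction k using Nat.strong_induction_on with
  | _ k ih =>
    intro w hk hw hsum hm
    by_cases heq : ∀ x ∈ supp w, ∀ y ∈ supp w, w x = w y
    · have hne : (supp w).Nonempty := by
        rw [Finset.nonempty_iff_ne_empty]
        intro h
        have : ∀ z, w z = 0 := fun z => by
          by_contra h'
          have := mem_supp.mpr h'
          rw [h] at this
          simp at this
        simp [this] at hsum
      have hcard : 0 < (supp w).card := hne.card_pos
      refine ⟨(supp w).card, hcard, ?_⟩
      rw [← hm]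
      apply M_uniform
      intro x hx
      have h1 : ∑ z, w z = ∑ z ∈ supp w, w z := by
        symm
        refine Finset.sum_subset (Finset.subset_univ _) fun z _ hz => ?_
        rwa [mem_supp, not_not] at hz
      have h2 : ∑ z ∈ supp w, w z = (supp w).card * w x := by
        rw [Finset.sum_congr rfl fun z hz => heq z hz x hx, Finset.sum_const, nsmul_eq_mul]
      rw [h1, h2] at hsum
      have : ((supp w).card : ℝ) ≠ 0 := by positivity
      field_simp
      linarith
    · push Not at heq
      obtain ⟨u, hu, v, hv, hne⟩ := heq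
      rw [mem_supp] at hu hv
      have huv : u ≠ v := fun h => hne (by rw [h])
      have hpu : 0 < w u := lt_of_le_of_ne (hw u) (Ne.symm hu)
      have hpv : 0 < w v := lt_of_le_of_ne (hw v) (Ne.symm hv)
      obtain ⟨A, Bu, Bv, Q, hM, hB, -⟩ := M_two (aG (⊤ : SimpleGraph V) g) w u v huv
      have hBB : Bu = Bv := hB fun T hT1 hT2 => by
        have hc : ∀ S : Finset V, (⊤ : SimpleGraph V).IsClique (S : Set V) := fun S a _ b _ hab => hab
        unfold aG
        rw [if_pos (hc _), if_pos (hc _), Finset.card_insert_of_notMem hT1,
          Finset.card_insert_of_notMem hT2]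
      have hself : Function.update (Function.update w u (w u)) v (w v) = w := by
        rw [Function.update_eq_self, Function.update_eq_self]
      have h0 := hM (w u) (w v)
      rw [hself, hm, hBB] at h0
      have hnn : ∀ x y : ℝ, 0 ≤ x → 0 ≤ y → ∀ z, 0 ≤ Function.update (Function.update w u x) v y z := by
        intro x y hx hy z
        by_cases hzv : z = v
        · subst hzv; rwa [Function.update_self]
        · rw [Function.update_of_ne hzv]
          by_cases hzu : z = u
          · subst hzu; rwa [Function.update_self]
          · rw [Function.update_of_ne hzu]; exact hw z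
      have hss : ∀ x y : ℝ, x + y = w u + w v →
          ∑ z, Function.update (Function.update w u x) v y z = 1 := by
        intro x y hxy
        rw [update_sum w u v huv _ _ hxy]; exact hsum
      have h1 := hmax _ (hnn ((w u + w v) / 2) ((w u + w v) / 2) (by positivity) (by positivity))
        (hss _ _ (by ring))
      have h2 := hmax _ (hnn (w u + w v) 0 (by positivity) le_rfl) (hss _ _ (by ring))
      rw [hM, hBB] at h1 h2
      have hsq : 0 < (w u - w v) ^ 2 := by
        have : w u - w v ≠ 0 := sub_ne_zero.mpr hne
        positivity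
      have hprod : 0 < w u * w v := mul_pos hpu hpv
      have hQ1 : Q * ((w u - w v) ^ 2) ≤ 0 := by
        have e1 : Q * ((w u - w v) ^ 2) = 4 * ((A + Bv * ((w u + w v) / 2) + Bv * ((w u + w v) / 2) +
          Q * ((w u + w v) / 2 * ((w u + w v) / 2))) - (A + Bv * w u + Bv * w v + Q * (w u * w v))) := by ring
        rw [e1, ← h0]
        linarith
      have hQ2 : 0 ≤ Q * (w u * w v) := by
        have e1 : Q * (w u * w v) = (A + Bv * w u + Bv * w v + Q * (w u * w v)) -
          (A + Bv * (w u + w v) + Bv * 0 + Q * ((w u + w v) * 0)) := by ring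
        rw [e1, ← h0]
        linarith
      have hQ : Q = 0 := by
        apply le_antisymm
        · by_contra h
          push Not at h
          have := mul_pos h hsq
          linarith
        · by_contra h
          push Not at h
          have := mul_neg_of_neg_of_pos h hprod
          linarith
      have hlt : (supp (Function.update (Function.update w u (w u + w v)) v 0)).card < k :=
        hk ▸ supp_update_lt w u v huv hu hv _
      refine ih _ hlt _ rfl (hnn _ _ (by positivity) le_rfl) (hss _ _ (by ring)) ?_
      rw [hM, hBB, hQ]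
      rw [hQ] at h0
      linarith

/-- The graph polynomial at a probability weighting is at most its value at some uniform weighting
of a clique. -/
theorem graph_le (G : SimpleGraph V) (g : ℕ → ℝ) (w : V → ℝ) (hw : ∀ z, 0 ≤ w z)
    (hsum : ∑ z, w z = 1) : ∃ k : ℕ, 0 < k ∧ M (aG G g) w ≤ U g k := by
  classical
  obtain ⟨w', h2, h3, h4, h5⟩ := exists_clique G g _ w rfl hw hsum
  have h6 : M (aG G g) w' = M (aG (⊤ : SimpleGraph V) g) w' := by
    unfold M
    refine Finset.sum_congr rfl fun S _ => ?_
    by_cases hS : S ⊆ supp w'
    · congr 1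
      unfold aG
      rw [if_pos, if_pos]
      · intro a _ b _ hab; exact hab
      · exact h4.subset (by exact_mod_cast hS)
    · rw [Finset.not_subset] at hS
      obtain ⟨x, hx, hxn⟩ := hS
      rw [mem_supp, not_not] at hxn
      rw [Finset.prod_eq_zero hx hxn, mul_zero, mul_zero]
  have hcpt : IsCompact (stdSimplex ℝ V) := isCompact_stdSimplex ℝ V
  have hmem : w' ∈ stdSimplex ℝ V := ⟨h2, h3⟩
  obtain ⟨wm, hwm, hmax⟩ := hcpt.exists_isMaxOn ⟨w', hmem⟩
    (M_continuous (aG (⊤ : SimpleGraph V) g)).continuousOn
  obtain ⟨k, hk, hmk⟩ := max_uniform g (M (aG (⊤ : SimpleGraph V) g) wm)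
    (fun w hw hs => hmax (⟨hw, hs⟩ : w ∈ stdSimplex ℝ V)) _ wm rfl hwm.1 hwm.2 rfl
  refine ⟨k, hk, ?_⟩
  rw [← hmk]
  exact (h5.trans_eq h6).trans (hmax hmem)

end Pool.Agent.Q268.CD
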